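import Mathlib

/-!
Irreducible polynomials over extensions of coprime degree.
-/

set_option autoImplicit false
set_option linter.all false

open Polynomial
open scoped Classical

namespace Pool.Agent.X261.AA

section ext

variable {k k' : Type} [Field k] [Field k'] [Algebra k k'] [FiniteDimensional k k']

/-- An irreducible polynomial stays irreducible over an extension of coprime degree. -/
theorem irr_of_coprime {g : k[X]} (hg : Irreducible g)
    (hc : (Module.finrank k k').Coprime g.natDegree) : Irreducible (g.map (algebraMap k k')) := by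
  have hg0 := hg.ne_zero
  have hinj := (algebraMap k k').injective
  have hm0 : g.map (algebraMap k k') ≠ 0 := (Polynomial.map_ne_zero_iff hinj).2 hg0
  have hnu : ¬ IsUnit (g.map (algebraMap k k')) := by
    intro h
    have h1 := natDegree_eq_zero_of_isUnit h
    rw [natDegree_map] at h1
    have := hg.natDegree_pos
    omega
  obtain ⟨Q, hQ, Z, hZ⟩ := WfDvdMonoid.exists_irreducible_factor hnu hm0
  haveI : Fact (Irreducible Q) := ⟨hQ⟩
  let L := AdjoinRoot Q
  haveI : IsScalarTower k k' L := inferInstance
  haveI : FiniteDimensional k' L := (AdjoinRoot.powerBasis hQ.ne_zero).finite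
  haveI : FiniteDimensional k L := FiniteDimensional.trans k k' L
  let α : L := AdjoinRoot.root Q
  have hα : aeval α g = 0 := by
    have h1 : aeval α (g.map (algebraMap k k')) = 0 := by
      rw [hZ, map_mul]
      have h2 : aeval α Q = 0 := by
        rw [AdjoinRoot.aeval_eq]
        exact AdjoinRoot.mk_self
      rw [h2, zero_mul]
    rwa [aeval_map_algebraMap] at h1
  have hint : IsIntegral k α := Algebra.IsIntegral.isIntegral α
  have h1 := minpoly.eq_of_irreducible hg hα
  have h2 : (minpoly k α).natDegree = g.natDegree := by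
    rw [← h1, natDegree_mul_C]
    exact inv_ne_zero (leadingCoeff_ne_zero.2 hg0)
  have h3 := minpoly.degree_dvd (K := k) (L := L) hint
  rw [h2, ← Module.finrank_mul_finrank k k' L] at h3
  have h4 : g.natDegree ∣ Module.finrank k' L := hc.symm.dvd_of_dvd_mul_left h3
  have h5 : Module.finrank k' L = Q.natDegree := by
    rw [PowerBasis.finrank (AdjoinRoot.powerBasis hQ.ne_zero)]
    exact AdjoinRoot.powerBasis_dim hQ.ne_zero
  rw [h5] at h4
  have h6 : g.natDegree ≤ Q.natDegree := Nat.le_of_dvd hQ.natDegree_pos h4
  have hZ0 : Z ≠ 0 := by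
    rintro rfl
    rw [mul_zero] at hZ
    exact hm0 hZ
  have h7 := congrArg natDegree hZ
  rw [natDegree_map, natDegree_mul hQ.ne_zero hZ0] at h7
  have h8 : Z.natDegree = 0 := by omega
  obtain ⟨c, rfl⟩ := natDegree_eq_zero.1 h8
  have hc0 : c ≠ 0 := by
    rintro rfl
    exact hZ0 C_0
  rw [hZ]
  exact (irreducible_mul_isUnit (isUnit_C.2 (isUnit_iff_ne_zero.2 hc0))).2 hQ

variable {f D : k[X]}

/-- Inert primes stay inert over extensions of coprime degree. -/
theorem inert_ext (hD : D ≠ 0)
    (hin : ∀ P : k[X], Irreducible P → P ∣ D → Irreducible (P.comp f))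
    (hc : ∀ P : k[X], Irreducible P → P ∣ D →
      (Module.finrank k k').Coprime (P.natDegree * f.natDegree))
    {Q : k'[X]} (hQ : Irreducible Q) (hd : Q ∣ D.map (algebraMap k k')) :
    Irreducible (Q.comp (f.map (algebraMap k k'))) := by
  have key : ∀ (n : ℕ) (Z : k[X]), Z.natDegree = n → Z ≠ 0 → Z ∣ D →
      Q ∣ Z.map (algebraMap k k') → ∃ P : k[X], Irreducible P ∧ P ∣ D ∧
        Q ∣ P.map (algebraMap k k') := by
    intro n
    induction n using Nat.strong_induction_on with
    | _ n ih =>
      intro Z hn hZ0 hZD hQZ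
      by_cases hu : IsUnit Z
      · exact absurd (isUnit_of_dvd_unit hQZ (hu.map (mapRingHom (algebraMap k k'))))
          hQ.not_isUnit
      · obtain ⟨P, hP, Y, hY⟩ := WfDvdMonoid.exists_irreducible_factor hu hZ0
        rw [hY, Polynomial.map_mul] at hQZ
        rcases hQ.prime.dvd_or_dvd hQZ with h | h
        · exact ⟨P, hP, (Dvd.intro _ hY.symm).trans hZD, h⟩
        · have hY0 : Y ≠ 0 := by
            rintro rfl
            rw [mul_zero] at hY
            exact hZ0 hY
          refine ih Y.natDegree ?_ Y rfl hY0 ((Dvd.intro_left _ hY.symm).trans hZD) h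
          rw [← hn, hY, natDegree_mul hP.ne_zero hY0]
          have := hP.natDegree_pos
          omega
  obtain ⟨P, hP, hPD, hQP⟩ := key _ D rfl hD dvd_rfl hd
  have h1 := hc P hP hPD
  have h2 : Irreducible (P.map (algebraMap k k')) :=
    irr_of_coprime hP (Nat.Coprime.coprime_dvd_right (Dvd.intro _ rfl) h1)
  have h3 : Irreducible ((P.comp f).map (algebraMap k k')) :=
    irr_of_coprime (hin P hP hPD) (by rw [natDegree_comp]; exact h1)
  rw [Polynomial.map_comp] at h3
  obtain ⟨w, hw⟩ := hQ.associated_of_dvd h2 hQP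
  have h6 : Associated (Q.comp (f.map (algebraMap k k')))
      ((P.map (algebraMap k k')).comp (f.map (algebraMap k k'))) := by
    refine ⟨Units.map (compRingHom (f.map (algebraMap k k')) : k'[X] →* k'[X]) w, ?_⟩
    show Q.comp _ * (w : k'[X]).comp _ = _
    rw [← mul_comp, hw]
  exact h6.irreducible_iff.2 h3

end ext

end Pool.Agent.X261.AA
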