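import Pool.Agent.X261.TS.Ext
import Pool.Agent.X261.AA.Ext

/-!
Almost all polynomials are inert: counting.
-/

set_option autoImplicit false
set_option linter.all false

open Polynomial IsDedekindDomain
open scoped Classical

namespace Pool.Agent.X261.AA

section pol

/-- The monic polynomial of degree `N` with the lower coefficients `a`. -/
noncomputable def pol {R : Type} [CommRing R] {N : ℕ} (a : Fin N → R) : R[X] :=
  X ^ N + ∑ i : Fin N, C (a i) * X ^ (i : ℕ)

variable {R S : Type} [CommRing R] [CommRing S] {N : ℕ}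

theorem pol_lt (a : Fin N → R) : (∑ i : Fin N, C (a i) * X ^ (i : ℕ)).degree < (N : WithBot ℕ) :=
  Polynomial.degree_sum_fin_lt a

theorem monic_pol (a : Fin N → R) : (pol a).Monic := monic_X_pow_add (pol_lt a)

theorem natDegree_pol [Nontrivial R] (a : Fin N → R) : (pol a).natDegree = N := by
  have h : (∑ i : Fin N, C (a i) * X ^ (i : ℕ)).degree < ((X : R[X]) ^ N).degree := by
    rw [degree_X_pow]
    exact pol_lt a
  unfold pol
  rw [natDegree_add_eq_left_of_degree_lt h, natDegree_X_pow]

theorem coeff_pol (a : Fin N → R) (i : Fin N) : (pol a).coeff i = a i := by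
  unfold pol
  rw [coeff_add, coeff_X_pow, if_neg i.2.ne, zero_add, finset_sum_coeff, Finset.sum_eq_single i]
  · rw [coeff_C_mul_X_pow, if_pos rfl]
  · intro j _ hj
    rw [coeff_C_mul_X_pow, if_neg]
    intro h
    exact hj (Fin.ext h).symm
  · intro h
    exact absurd (Finset.mem_univ i) h

theorem pol_coeff {P : R[X]} (hm : P.Monic) (hN : P.natDegree = N) :
    pol (fun i : Fin N => P.coeff i) = P := by
  rcases subsingleton_or_nontrivial R with h | h
  · exact Subsingleton.elim _ _
  · ext n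
    rcases lt_trichotomy n N with h1 | h1 | h1
    · exact coeff_pol (fun i : Fin N => P.coeff i) ⟨n, h1⟩
    · have h2 := (monic_pol (fun i : Fin N => P.coeff i)).coeff_natDegree
      rw [natDegree_pol] at h2
      rw [h1, h2, ← hN]
      exact hm.coeff_natDegree.symm
    · rw [coeff_eq_zero_of_natDegree_lt (by rw [natDegree_pol]; exact h1),
        coeff_eq_zero_of_natDegree_lt (by omega)]

theorem map_pol (φ : R →+* S) (a : Fin N → R) : (pol a).map φ = pol (fun i => φ (a i)) := by
  unfold pol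
  rw [Polynomial.map_add, Polynomial.map_pow, map_X, Polynomial.map_sum]
  congr 1
  refine Finset.sum_congr rfl fun i _ => ?_
  rw [Polynomial.map_mul, map_C, Polynomial.map_pow, map_X]

end pol

section fin

variable {κ : Type} [Field κ] [Finite κ]

/-- A proportion of at least `1 / (6 N)` of the polynomials over a finite field. -/
theorem count_fin {f : κ[X]} (h2 : (2 : κ) ≠ 0) (h3 : (3 : κ) ≠ 0) (hm : f.Monic)
    (hd : f.natDegree = 3) (hg : f.coeff 2 ^ 2 ≠ 3 * f.coeff 1) {N : ℕ} (hN : 0 < N)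
    (hq : 12 ≤ Nat.card κ) :
    Nat.card (Fin N → κ) ≤
      6 * N * Nat.card {a : Fin N → κ // Irreducible ((pol a).comp f)} := by
  obtain ⟨h1, -⟩ := TS.inert_bounds h2 h3 hm hd hg hN
  have hcard : Nat.card (Fin N → κ) = Nat.card κ ^ N := by
    rw [Nat.card_fun, Nat.card_eq_fintype_card (α := Fin N), Fintype.card_fin]
  have h4 : 12 * Nat.card κ ^ (N / 2) ≤ Nat.card κ ^ N := by
    have e : N = N / 2 + (N - N / 2) := by omega
    have h5 : 1 ≤ N - N / 2 := by omega
    calc 12 * Nat.card κ ^ (N / 2) ≤ Nat.card κ ^ (N - N / 2) * Nat.card κ ^ (N / 2) := by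
          refine Nat.mul_le_mul_right _ (hq.trans ?_)
          calc Nat.card κ = Nat.card κ ^ 1 := (pow_one _).symm
            _ ≤ Nat.card κ ^ (N - N / 2) := Nat.pow_le_pow_right (by omega) h5
      _ = Nat.card κ ^ N := by rw [← pow_add]; congr 1; omega
  have hfin := (TD.irr_finite (k := κ) N).subset
    (fun P (hP : P ∈ {P ∈ TD.irr κ N | Irreducible (P.comp f)}) => hP.1)
  have h6 : {P ∈ TD.irr κ N | Irreducible (P.comp f)}.ncard ≤
      Nat.card {a : Fin N → κ // Irreducible ((pol a).comp f)} := by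
    rw [← Nat.card_coe_set_eq]
    refine Nat.card_le_card_of_injective (fun P : {P ∈ TD.irr κ N | Irreducible (P.comp f)} =>
      (⟨fun i : Fin N => P.1.coeff i, by
        rw [pol_coeff P.2.1.1 P.2.1.2.2]
        exact P.2.2⟩ : {a : Fin N → κ // Irreducible ((pol a).comp f)})) ?_
    intro P Q h
    have h7 : (fun i : Fin N => P.1.coeff i) = fun i : Fin N => Q.1.coeff i :=
      congrArg Subtype.val h
    apply Subtype.ext
    rw [← pol_coeff P.2.1.1 P.2.1.2.2, ← pol_coeff Q.2.1.1 Q.2.1.2.2, h7]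
  rw [hcard]
  have h8 := Nat.mul_le_mul_left (3 * N) h6
  have h9 : 3 * N * {P ∈ TD.irr κ N | Irreducible (P.comp f)}.ncard =
      3 * (N * {P ∈ TD.irr κ N | Irreducible (P.comp f)}.ncard) := by ring
  have h10 : 6 * N * Nat.card {a : Fin N → κ // Irreducible ((pol a).comp f)} =
      2 * (3 * N * Nat.card {a : Fin N → κ // Irreducible ((pol a).comp f)}) := by ring
  omega

end fin

section prod

/-- The elements of a product which avoid sets of positive proportion in every factor. -/
theorem prod_avoid {ι : Type} [Fintype ι] (X : ι → Type) [∀ i, Finite (X i)] (G : ∀ i, X i → Prop)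
    {c : ℝ} (hc : 0 ≤ c) (hc1 : c ≤ 1)
    (hG : ∀ i, c * Nat.card (X i) ≤ Nat.card {x : X i // G i x}) :
    (1 - (1 - c) ^ Fintype.card ι) * Nat.card (∀ i, X i) ≤
      Nat.card {x : ∀ i, X i // ∃ i, G i (x i)} := by
  have h1 : Nat.card {x : ∀ i, X i // ∀ i, ¬ G i (x i)} = ∏ i, Nat.card {x : X i // ¬ G i x} := by
    rw [Nat.card_congr (Equiv.subtypePiEquivPi (p := fun {i} x => ¬ G i x)), Nat.card_pi]
  have h2 : Nat.card (∀ i, X i) = Nat.card {x : ∀ i, X i // ∃ i, G i (x i)} +
      Nat.card {x : ∀ i, X i // ∀ i, ¬ G i (x i)} := by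
    rw [← Nat.card_sum]
    refine Nat.card_congr ((Equiv.sumCompl fun x : ∀ i, X i => ∃ i, G i (x i)).symm.trans
      (Equiv.sumCongr (Equiv.refl _) (Equiv.subtypeEquivRight fun x => ?_)))
    push Not
    rfl
  have h3 : ∀ i, (Nat.card {x : X i // ¬ G i x} : ℝ) ≤ (1 - c) * Nat.card (X i) := by
    intro i
    have h4 : Nat.card (X i) = Nat.card {x : X i // G i x} + Nat.card {x : X i // ¬ G i x} := by
      rw [← Nat.card_sum]
      exact Nat.card_congr (Equiv.sumCompl fun x : X i => G i x).symm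
    have h5 : (Nat.card (X i) : ℝ) = Nat.card {x : X i // G i x} +
        Nat.card {x : X i // ¬ G i x} := by exact_mod_cast h4
    have := hG i
    linarith
  have h6 : (Nat.card {x : ∀ i, X i // ∀ i, ¬ G i (x i)} : ℝ) ≤
      (1 - c) ^ Fintype.card ι * Nat.card (∀ i, X i) := by
    rw [h1, Nat.card_pi]
    push_cast
    calc ∏ i, (Nat.card {x : X i // ¬ G i x} : ℝ) ≤ ∏ i : ι, ((1 - c) * (Nat.card (X i) : ℝ)) :=
          Finset.prod_le_prod (fun i _ => Nat.cast_nonneg _) fun i _ => h3 i
      _ = (1 - c) ^ Fintype.card ι * ∏ i, (Nat.card (X i) : ℝ) := by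
          rw [Finset.prod_mul_distrib, Finset.prod_const, Finset.card_univ]
  have h7 : (Nat.card (∀ i, X i) : ℝ) = Nat.card {x : ∀ i, X i // ∃ i, G i (x i)} +
      Nat.card {x : ∀ i, X i // ∀ i, ¬ G i (x i)} := by exact_mod_cast h2
  linarith

end prod

end Pool.Agent.X261.AA
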