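import Pool.Agent.X261.AA.Cnt

/-!
Almost all polynomials over the ring of integers of a number field are inert.
-/

set_option autoImplicit false
set_option linter.all false

open Polynomial IsDedekindDomain NumberField
open scoped Classical

namespace Pool.Agent.X261.AA

section red

variable {O k : Type} [CommRing O] [IsDedekindDomain O] [Field k] [Algebra O k]
  [IsFractionRing O k]

theorem irr_of_red (v : HeightOneSpectrum O) {g : O[X]} (hg : g.Monic)
    (h : Irreducible (g.map (Ideal.Quotient.mk v.asIdeal))) :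
    Irreducible (g.map (algebraMap O k)) := by
  haveI := v.isPrime
  have h1 : Irreducible g := hg.irreducible_of_irreducible_map (Ideal.Quotient.mk v.asIdeal) g h
  exact (hg.irreducible_iff_irreducible_map_fraction_map (K := k)).1 h1

/-- A polynomial is irreducible if a composite is. -/
theorem irr_of_comp {F : Type} [Field F] {P f : F[X]} (hf : 0 < f.natDegree)
    (h : Irreducible (P.comp f)) : Irreducible P := by
  refine ⟨fun hu => ?_, fun a b hab => ?_⟩
  · obtain ⟨c, hc, rfl⟩ := isUnit_iff.1 hu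
    rw [C_comp] at h
    exact h.not_isUnit (isUnit_C.2 hc)
  · rw [hab, mul_comp] at h
    have key : ∀ c : F[X], IsUnit (c.comp f) → IsUnit c := by
      intro c hc
      have h1 := natDegree_eq_zero_of_isUnit hc
      rw [natDegree_comp] at h1
      have h2 : c.natDegree = 0 := by
        rcases Nat.mul_eq_zero.1 h1 with h3 | h3
        · exact h3
        · omega
      obtain ⟨c0, rfl⟩ := natDegree_eq_zero.1 h2
      rw [C_comp] at hc
      exact hc
    rcases h.isUnit_or_isUnit rfl with h1 | h1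
    · exact Or.inl (key a h1)
    · exact Or.inr (key b h1)

/-- The proportion of the inert polynomials in one residue field. -/
theorem count_v {f : O[X]} (hm : f.Monic) (hd : f.natDegree = 3) (v : HeightOneSpectrum O)
    (hfin : Finite (O ⧸ v.asIdeal)) (h12 : 12 ≤ Nat.card (O ⧸ v.asIdeal))
    (h6 : 6 * (f.coeff 2 ^ 2 - 3 * f.coeff 1) ∉ v.asIdeal) {N : ℕ} (hN : 0 < N) :
    Nat.card (Fin N → O ⧸ v.asIdeal) ≤ 6 * N * Nat.card {a : Fin N → O ⧸ v.asIdeal //
      Irreducible ((pol a).comp (f.map (Ideal.Quotient.mk v.asIdeal)))} := by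
  haveI : v.asIdeal.IsMaximal := v.isMaximal
  letI : Field (O ⧸ v.asIdeal) := Ideal.Quotient.field v.asIdeal
  have hne : (Ideal.Quotient.mk v.asIdeal) (6 * (f.coeff 2 ^ 2 - 3 * f.coeff 1)) ≠ 0 := fun h =>
    h6 (Ideal.Quotient.eq_zero_iff_mem.1 h)
  have e6 : (6 : O) = 2 * 3 := by norm_num
  rw [e6, map_mul, map_mul, map_sub, map_mul, map_pow, map_ofNat, map_ofNat] at hne
  have h2 : (2 : O ⧸ v.asIdeal) ≠ 0 := fun h => hne (by rw [h]; ring)
  have h3 : (3 : O ⧸ v.asIdeal) ≠ 0 := fun h => hne (by rw [h]; ring)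
  refine count_fin h2 h3 (hm.map _) ?_ ?_ hN h12
  · rw [hm.natDegree_map]
    exact hd
  · rw [coeff_map, coeff_map]
    intro h
    apply hne
    rw [h]
    ring

end red

section nf

theorem exists_over (k : Type) [Field k] [NumberField k] {p : ℕ} (hp : p.Prime) :
    ∃ P : HeightOneSpectrum (𝓞 k), (p : 𝓞 k) ∈ P.asIdeal := by
  have hnu : ¬ IsUnit (p : 𝓞 k) := by
    intro h
    have h1 := h.map (Algebra.norm ℤ)
    have h2 : Algebra.norm ℤ (p : 𝓞 k) = (p : ℤ) ^ Module.finrank ℤ (𝓞 k) := by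
      have h5 := Algebra.norm_algebraMap (S := 𝓞 k) (p : ℤ)
      rw [← h5]
      congr 1
      simp
    rw [h2, isUnit_pow_iff (by rw [RingOfIntegers.rank]; exact Module.finrank_pos.ne')] at h1
    exact (Nat.prime_iff_prime_int.1 hp).not_isUnit h1
  obtain ⟨M, hM, hpM⟩ := exists_max_ideal_of_mem_nonunits (mem_nonunits_iff.2 hnu)
  refine ⟨⟨M, hM.isPrime, fun h0 => ?_⟩, hpM⟩
  rw [h0, Ideal.mem_bot] at hpM
  exact hp.ne_zero (by exact_mod_cast hpM)

theorem inf_primes (k : Type) [Field k] [NumberField k] : Infinite (HeightOneSpectrum (𝓞 k)) := by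
  choose f hf using fun p : Nat.Primes => exists_over k p.2
  refine Infinite.of_injective f fun p q hpq => ?_
  by_contra hne
  have hne' : (p : ℕ) ≠ q := fun h => hne (Subtype.ext h)
  have hc : Nat.Coprime p q := (Nat.coprime_primes p.2 q.2).2 hne'
  have h1 := hf p
  have h2 := hf q
  rw [← hpq] at h2
  have h3 : (1 : 𝓞 k) ∈ (f p).asIdeal := by
    have hb := Nat.gcd_eq_gcd_ab (p : ℕ) (q : ℕ)
    rw [hc] at hb
    have hb' : (1 : 𝓞 k) = (((p : ℕ) : ℤ) : 𝓞 k) * ((Nat.gcdA p q : ℤ) : 𝓞 k) +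
        (((q : ℕ) : ℤ) : 𝓞 k) * ((Nat.gcdB p q : ℤ) : 𝓞 k) := by
      rw [← Int.cast_mul, ← Int.cast_mul, ← Int.cast_add, ← hb]
      simp
    rw [hb']
    refine add_mem (Ideal.mul_mem_right _ _ ?_) (Ideal.mul_mem_right _ _ ?_)
    · rw [Int.cast_natCast]; exact h1
    · rw [Int.cast_natCast]; exact h2
  exact (f p).isPrime.ne_top ((Ideal.eq_top_iff_one _).2 h3)

variable {k : Type} [Field k] [NumberField k]

theorem fin_mem {c : 𝓞 k} (hc : c ≠ 0) :
    {P : HeightOneSpectrum (𝓞 k) | c ∈ P.asIdeal}.Finite := by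
  have h := Ideal.finite_factors (I := Ideal.span {c}) (by
    rw [Ne, Ideal.zero_eq_bot, Ideal.span_singleton_eq_bot]; exact hc)
  exact h.subset fun P hP => Ideal.dvd_span_singleton.2 hP

theorem fin_norm (X : ℕ) :
    {P : HeightOneSpectrum (𝓞 k) | Ideal.absNorm P.asIdeal ≤ X}.Finite := by
  have h := Ideal.finite_setOfPred_absNorm_le (S := 𝓞 k) X
  refine Set.Finite.of_finite_image (f := fun P : HeightOneSpectrum (𝓞 k) => P.asIdeal)
    (h.subset ?_) ?_
  · rintro _ ⟨P, hP, rfl⟩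
    exact hP
  · intro P _ Q _ hPQ
    exact HeightOneSpectrum.ext hPQ

theorem finite_quot (v : HeightOneSpectrum (𝓞 k)) : Finite (𝓞 k ⧸ v.asIdeal) :=
  Ideal.finiteQuotientOfFreeOfNeBot _ v.ne_bot

/-- **Almost all polynomials are inert.** -/
theorem almost_all {f : (𝓞 k)[X]} (hm : f.Monic) (hd : f.natDegree = 3)
    (hg : f.coeff 2 ^ 2 ≠ 3 * f.coeff 1) {N : ℕ} (hN : 0 < N) {η : ℝ} (hη : 0 < η) :
    ∃ T : Finset (HeightOneSpectrum (𝓞 k)),
      (1 - η) * Nat.card (∀ v : T, Fin N → 𝓞 k ⧸ v.1.asIdeal) ≤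
        Nat.card {x : ∀ v : T, Fin N → 𝓞 k ⧸ v.1.asIdeal // ∀ P : (𝓞 k)[X], P.Monic →
          P.natDegree = N → (∀ (v : T) (i : Fin N), Ideal.Quotient.mk v.1.asIdeal (P.coeff i) = x v i) →
          Irreducible ((P.map (algebraMap (𝓞 k) k)).comp (f.map (algebraMap (𝓞 k) k)))} := by
  have hN' : (0 : ℝ) < N := by exact_mod_cast hN
  set c : ℝ := 1 / (6 * N) with hc
  have hN1 : (1 : ℝ) ≤ N := by exact_mod_cast hN
  have hc0 : 0 < c := by positivity
  have hc1 : c ≤ 1 := by
    rw [hc, div_le_one (by positivity)]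
    linarith
  obtain ⟨r, hr⟩ := exists_pow_lt_of_lt_one hη (show 1 - c < 1 by linarith)
  -- the primes
  have h6 : (6 * (f.coeff 2 ^ 2 - 3 * f.coeff 1) : 𝓞 k) ≠ 0 :=
    mul_ne_zero (by norm_num) (sub_ne_zero.2 hg)
  have hbad := (fin_mem h6).union (fin_norm (k := k) 11)
  haveI := inf_primes k
  obtain ⟨T, hT, hTr⟩ := hbad.infinite_compl.exists_subset_card_eq r
  have hTv : ∀ v : T, 6 * (f.coeff 2 ^ 2 - 3 * f.coeff 1) ∉ v.1.asIdeal ∧
      12 ≤ Nat.card (𝓞 k ⧸ v.1.asIdeal) := by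
    intro v
    have h1 := hT v.2
    rw [Set.mem_compl_iff, Set.mem_union, not_or] at h1
    refine ⟨h1.1, ?_⟩
    have h2 : ¬ Ideal.absNorm v.1.asIdeal ≤ 11 := h1.2
    have h3 : Ideal.absNorm v.1.asIdeal = Nat.card (𝓞 k ⧸ v.1.asIdeal) :=
      Ideal.absNorm_apply _
    omega
  refine ⟨T, ?_⟩
  haveI : ∀ v : T, Finite (𝓞 k ⧸ v.1.asIdeal) := fun v => finite_quot v.1
  have h1 := prod_avoid (ι := T) (fun v : T => Fin N → 𝓞 k ⧸ v.1.asIdeal)
    (fun v a => Irreducible ((pol a).comp (f.map (Ideal.Quotient.mk v.1.asIdeal)))) hc0.le hc1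
    (fun v => by
      have h2 := count_v hm hd v.1 inferInstance (hTv v).2 (hTv v).1 hN
      have h3 : (Nat.card (Fin N → 𝓞 k ⧸ v.1.asIdeal) : ℝ) ≤ 6 * N * Nat.card
          {a : Fin N → 𝓞 k ⧸ v.1.asIdeal //
            Irreducible ((pol a).comp (f.map (Ideal.Quotient.mk v.1.asIdeal)))} := by
        exact_mod_cast h2
      rw [hc, div_mul_eq_mul_div, one_mul, div_le_iff₀ (by positivity)]
      linarith)
  rw [Fintype.card_coe, hTr] at h1
  refine (le_trans (mul_le_mul_of_nonneg_right (by linarith) (Nat.cast_nonneg _)) h1).trans ?_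
  haveI : Finite (∀ v : T, Fin N → 𝓞 k ⧸ v.1.asIdeal) := inferInstance
  have hle : Nat.card {x : ∀ v : T, Fin N → 𝓞 k ⧸ v.1.asIdeal //
      ∃ v, Irreducible ((pol (x v)).comp (f.map (Ideal.Quotient.mk v.1.asIdeal)))} ≤
      Nat.card {x : ∀ v : T, Fin N → 𝓞 k ⧸ v.1.asIdeal // ∀ P : (𝓞 k)[X], P.Monic →
          P.natDegree = N → (∀ (v : T) (i : Fin N), Ideal.Quotient.mk v.1.asIdeal (P.coeff i) = x v i) →
          Irreducible ((P.map (algebraMap (𝓞 k) k)).comp (f.map (algebraMap (𝓞 k) k)))} := by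
    refine Nat.card_le_card_of_injective (fun x => ⟨x.1, fun P hP hPN hPx => ?_⟩) ?_
    · obtain ⟨v, hv⟩ := x.2
      rw [← Polynomial.map_comp]
      refine irr_of_red v.1 (hP.comp hm (by omega)) ?_
      rw [Polynomial.map_comp]
      have e : P.map (Ideal.Quotient.mk v.1.asIdeal) = pol (x.1 v) := by
        have h5 := pol_coeff hP hPN
        conv_lhs => rw [← h5]
        rw [map_pol]
        congr 1
        exact funext fun i => hPx v i
      rw [e]
      exact hv
    · intro x y hxy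
      exact Subtype.ext (Subtype.mk.inj hxy)
  exact_mod_cast hle

end nf

end Pool.Agent.X261.AA
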